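import Mathlib

namespace Pool.Agent.Results.MP_9e9eb1_al.NoHEigen

/-- A symmetric B0 tensor of order 3 and dimension 2 without H-eigenvalue. -/
theorem result : ∃ B : (Fin 3 → Fin 2) → ℝ,
    (∀ (σ : Equiv.Perm (Fin 3)) (i : Fin 3 → Fin 2), B (i ∘ σ) = B i) ∧
    (∀ i : Fin 2, 0 ≤ ∑ j : Fin 2 → Fin 2, B (Fin.cons i j) ∧
      ∀ j : Fin 2 → Fin 2, j ≠ (fun _ => i) →
        B (Fin.cons i j) ≤ (∑ l : Fin 2 → Fin 2, B (Fin.cons i l)) / 2 ^ 2) ∧
    ¬ ∃ (lam : ℝ) (x : Fin 2 → ℝ), x ≠ 0 ∧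
      ∀ i : Fin 2, ∑ j : Fin 2 → Fin 2, B (Fin.cons i j) * ∏ t, x (j t) = lam * x i ^ 2 := by
  have hs : ∀ f : (Fin 2 → Fin 2) → ℝ, ∑ j, f j = f ![0, 0] + f ![0, 1] + f ![1, 0] + f ![1, 1] := by
    intro f
    rw [show (Finset.univ : Finset (Fin 2 → Fin 2)) = {![0, 0], ![0, 1], ![1, 0], ![1, 1]} by decide,
      Finset.sum_insert (by decide), Finset.sum_insert (by decide), Finset.sum_pair (by decide)]
    ring
  let c : ℕ → ℤ := fun s => if s = 0 then 3 else if s = 1 then 1 else if s = 2 then -1 else 6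
  have hc : ∀ (i : Fin 2) (j : Fin 2 → Fin 2), ∑ t : Fin 3, ((Fin.cons i j : Fin 3 → Fin 2) t).val
      = i.val + (j 0).val + (j 1).val := by decide
  refine ⟨fun i => c (∑ t, (i t).val), fun σ i => ?_, fun i => ⟨?_, fun j hj => ?_⟩, ?_⟩
  · simp only [Function.comp]
    rw [Equiv.sum_comp σ (fun t => (i t).val)]
  · rw [hs]; simp only [hc]; fin_cases i <;> simp [c] <;> norm_num
  · rw [hs]; simp only [hc]
    have : c (i.val + (j 0).val + (j 1).val) ≤ 1 := by revert i j; decide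
    have : (c (i.val + (j 0).val + (j 1).val) : ℝ) ≤ 1 := by exact_mod_cast this
    refine this.trans ?_
    fin_cases i <;> simp [c] <;> norm_num
  · rintro ⟨lam, x, hx, h⟩
    have h0 := h 0
    have h1 := h 1
    rw [hs] at h0 h1
    simp only [hc] at h0 h1
    simp [c] at h0 h1
    have h2 : (x 0 ^ 2 - x 0 * x 1 + x 1 ^ 2) ^ 2 = 0 := by
      linear_combination x 0 ^ 2 * h1 - x 1 ^ 2 * h0
    have h3 : x 0 ^ 2 - x 0 * x 1 + x 1 ^ 2 = 0 := by simpa using h2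
    apply hx
    ext i
    fin_cases i <;> simp <;> nlinarith [sq_nonneg (x 0 - x 1), sq_nonneg (x 0), sq_nonneg (x 1)]

end Pool.Agent.Results.MP_9e9eb1_al.NoHEigen
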