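import Mathlib

namespace Pool.Agent.Results.MP_9e9eb1_al.NonnegHEigen

/-- Every H-eigenvalue of a B0 tensor of odd order `k + 1` is nonnegative. -/
theorem result (k n : ℕ) (hk : Even k) (B : (Fin (k + 1) → Fin n) → ℝ)
    (hB : ∀ i : Fin n, 0 ≤ ∑ j : Fin k → Fin n, B (Fin.cons i j) ∧
      ∀ j : Fin k → Fin n, j ≠ (fun _ => i) →
        B (Fin.cons i j) ≤ (∑ l : Fin k → Fin n, B (Fin.cons i l)) / (n : ℝ) ^ k)
    (lam : ℝ) (x : Fin n → ℝ) (hx : x ≠ 0)
    (h : ∀ i : Fin n, ∑ j : Fin k → Fin n, B (Fin.cons i j) * ∏ t, x (j t) = lam * x i ^ k) :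
    0 ≤ lam := by
  obtain ⟨i0, hi0⟩ := Function.ne_iff.mp hx
  obtain ⟨i, -, hi⟩ := Finset.exists_max_image Finset.univ (fun i => |x i|) ⟨i0, Finset.mem_univ _⟩
  have hn : (0 : ℝ) < n := by exact_mod_cast Fin.pos i
  have hxi : 0 < |x i| := lt_of_lt_of_le (abs_pos.mpr hi0) (hi i0 (Finset.mem_univ _))
  have hM : 0 < x i ^ k := by rw [← hk.pow_abs]; positivity
  set r := (∑ l : Fin k → Fin n, B (Fin.cons i l)) / (n : ℝ) ^ k with hr
  have hr0 : 0 ≤ r := div_nonneg (hB i).1 (by positivity)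
  have hle : ∀ j : Fin k → Fin n, ∏ t, x (j t) ≤ x i ^ k := by
    intro j
    refine (le_abs_self _).trans ?_
    rw [Finset.abs_prod, ← hk.pow_abs]
    refine (Finset.prod_le_prod (fun t _ => abs_nonneg _)
      (fun t _ => hi (j t) (Finset.mem_univ _))).trans ?_
    simp
  have h1 : 0 ≤ ∑ j : Fin k → Fin n, (r - B (Fin.cons i j)) * (x i ^ k - ∏ t, x (j t)) := by
    refine Finset.sum_nonneg fun j _ => ?_
    by_cases hj : j = fun _ => i
    · subst hj; simp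
    · exact mul_nonneg (sub_nonneg.mpr ((hB i).2 j hj)) (sub_nonneg.mpr (hle j))
  have h2 : ∑ j : Fin k → Fin n, ∏ t, x (j t) = (∑ a, x a) ^ k := (Fintype.sum_pow x k).symm
  have h3 : ∑ l : Fin k → Fin n, B (Fin.cons i l) = r * (n : ℝ) ^ k := by
    rw [hr]; field_simp
  simp only [sub_mul, mul_sub, Finset.sum_sub_distrib] at h1
  rw [h i, ← Finset.sum_mul, ← Finset.sum_mul, ← Finset.mul_sum, h2, h3] at h1
  simp only [Finset.sum_const, Finset.card_univ, Fintype.card_fun, Fintype.card_fin,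
    nsmul_eq_mul, Nat.cast_pow] at h1
  have h4 : 0 ≤ r * (∑ a, x a) ^ k := mul_nonneg hr0 (hk.pow_nonneg _)
  have h5 : 0 ≤ lam * x i ^ k := by linarith
  exact nonneg_of_mul_nonneg_left h5 hM

end Pool.Agent.Results.MP_9e9eb1_al.NonnegHEigen
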